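import Pool.Agent.H8.AV3.Stmts7
import Pool.Agent.H77.AVS.BIN

/-!
# NTR: the trivial class is not represented by forms of small degree types
-/

set_option autoImplicit false

namespace Pool.Agent.H43.AV3C

open Polynomial Matrix Pool.AVR Pool.AV3

namespace NTR

section Alg

variable {K : Type} [Field K]

theorem cross_mulVec (g : Matrix (Fin 3) (Fin 3) K) (v w x : Fin 3 → K) :
    crossProduct (g *ᵥ v) (g *ᵥ w) ⬝ᵥ (g *ᵥ x) = g.det * (crossProduct v w ⬝ᵥ x) := by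
  simp only [crossProduct, dotProduct, Fin.sum_univ_three, mulVec3, Matrix.det_fin_three,
    LinearMap.mk₂_apply, Matrix.cons_val]
  ring

theorem cross_comb (u r s : K) (v w x : Fin 3 → K) :
    crossProduct (s • v) (u • v + r • w) ⬝ᵥ x = s * r * (crossProduct v w ⬝ᵥ x) := by
  simp only [crossProduct, dotProduct, Fin.sum_univ_three, Pi.add_apply, Pi.smul_apply,
    smul_eq_mul, LinearMap.mk₂_apply, Matrix.cons_val]
  ring

theorem tder_comb_left (c : Fin 10 → K) (u r : K) (v w : Fin 3 → K) :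
    tder c (u • v + r • w) v =
      3 * u ^ 2 * tev c v + 2 * u * r * tder c v w + r ^ 2 * tder c w v := by
  simp only [tev, tder, Pi.add_apply, Pi.smul_apply, smul_eq_mul]
  ring

theorem tev_e0 (c : Fin 10 → K) : tev c ![1, 0, 0] = c 0 := by
  simp [tev]

theorem tev_e1 (c : Fin 10 → K) : tev c e1 = c 6 := by
  simp [tev, e1]

theorem tder_e0_e1 (c : Fin 10 → K) : tder c ![1, 0, 0] e1 = c 1 := by
  simp [tder, e1]

theorem tder_e1_e0 (c : Fin 10 → K) : tder c e1 ![1, 0, 0] = c 3 := by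
  simp [tder, e1]

theorem tder_e1_e2 (c : Fin 10 → K) : tder c e1 ![0, 0, 1] = c 7 := by
  simp [tder, e1]

/-- The data of a flex: `v` is the flex, `w` a second point on the tangent line. -/
structure Flex (c : Fin 10 → K) (v w : Fin 3 → K) (μ κ : K) : Prop where
  v0 : v ≠ 0
  vw : ∀ r : K, w ≠ r • v
  h0 : tev c v = 0
  h1 : tder c v w = 0
  h2 : tder c w v = 0
  h3 : tev c w = κ
  hm : ∀ x : Fin 3 → K, tder c v x = μ * (crossProduct v w ⬝ᵥ x)

theorem Flex.comb {c : Fin 10 → K} {v w : Fin 3 → K} {μ κ : K} (h : Flex c v w μ κ)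
    (s u r : K) (hs : s ≠ 0) (hr : r ≠ 0) :
    Flex c (s • v) (u • v + r • w) (s / r * μ) (r ^ 3 * κ) := by
  refine ⟨smul_ne_zero hs h.v0, fun t ht => ?_, ?_, ?_, ?_, ?_, fun x => ?_⟩
  · apply h.vw (r⁻¹ * (t * s - u))
    have h3 : r • w = (t * s - u) • v := by
      rw [sub_smul, ← smul_smul, ← ht]
      simp
    rw [← smul_smul, ← h3, smul_smul, inv_mul_cancel₀ hr, one_smul]
  · rw [tev_smul_vec, h.h0, mul_zero]
  · rw [tder_smul_left, tder_add_right, tder_smul_right, tder_smul_right, tder_self, h.h0, h.h1]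
    ring
  · rw [tder_smul_right, tder_comb_left, h.h0, h.h1, h.h2]
    ring
  · rw [AV3.taylor, h.h0, h.h1, h.h2, h.h3]
    ring
  · rw [cross_comb, tder_smul_left, h.hm]
    field_simp

/-- Transport of a flex. -/
theorem Flex.push {c c' : Fin 10 → K} {v w : Fin 3 → K} {μ κ : K} {g : Matrix (Fin 3) (Fin 3) K}
    (hE : Eqv g c c') (h : Flex c (g *ᵥ v) (g *ᵥ w) μ κ) :
    Flex c' v w μ (κ / g.det) := by
  have hd : g.det ≠ 0 := hE.1.ne_zero
  refine ⟨fun h0 => h.v0 (by rw [h0, Matrix.mulVec_zero]), fun r hr => h.vw r ?_, ?_, ?_, ?_, ?_,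
    fun x => ?_⟩
  · rw [hr, Matrix.mulVec_smul]
  · have h3 := hE.tev v
    rw [h.h0] at h3
    exact (mul_eq_zero.1 h3.symm).resolve_left hd
  · have h3 := hE.tder v w
    rw [h.h1] at h3
    exact (mul_eq_zero.1 h3.symm).resolve_left hd
  · have h3 := hE.tder w v
    rw [h.h2] at h3
    exact (mul_eq_zero.1 h3.symm).resolve_left hd
  · have h3 := hE.tev w
    rw [h.h3] at h3
    rw [h3, mul_div_cancel_left₀ _ hd]
  · have h3 := hE.tder v x
    rw [h.hm, cross_mulVec] at h3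
    apply mul_left_cancel₀ hd
    rw [← h3]
    ring

theorem flex_FO (a b c : K) : Flex (FO a b c) e1 ![1, 0, 0] 1 1 := by
  refine ⟨fun h => ?_, fun r hr => ?_, ?_, ?_, ?_, ?_, fun x => ?_⟩
  · have := congrFun h 1
    simp [e1] at this
  · have := congrFun hr 0
    simp [e1] at this
  · simp [tev, FO, e1]
  · simp [tder, FO, e1]
  · simp [tder, FO, e1]
  · simp [tev, FO]
  · simp only [tder, FO, e1, crossProduct, dotProduct, Fin.sum_univ_three,
      LinearMap.mk₂_apply, Matrix.cons_val]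
    ring

/-- The scalar multiple of a form. -/
theorem Flex.smul_form {c : Fin 10 → K} {v w : Fin 3 → K} {μ κ : K} (h : Flex c v w μ κ)
    (t : K) : Flex (t • c) v w (t * μ) (t * κ) := by
  refine ⟨h.v0, h.vw, ?_, ?_, ?_, ?_, fun x => ?_⟩
  · rw [tev_smul_form, h.h0, mul_zero]
  · rw [tder_smul_form, h.h1, mul_zero]
  · rw [tder_smul_form, h.h2, mul_zero]
  · rw [tev_smul_form, h.h3]
  · rw [tder_smul_form, h.hm, mul_assoc]

theorem dsc_smul (τ r : K) (c : Fin 10 → K) : dsc (Jc τ (r • c)) = r ^ 12 * dsc (Jc τ c) := by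
  rw [Jc_smul]
  simp only [dsc, disc]
  ring

theorem dsc_eqv (hJER : JERStmt) (τ : K) (hτ : 2 * τ = 1) {g : Matrix (Fin 3) (Fin 3) K}
    {c c' : Fin 10 → K} (h : Eqv g c c') : dsc (Jc τ c') = dsc (Jc τ c) := by
  obtain ⟨η, hη⟩ := hJER K τ hτ g c c' h
  rw [hη, dsc_sh]

end Alg

theorem map_dsc_Jc {R S : Type} [CommRing R] [CommRing S] (φ : R →+* S) (τ : R)
    (c : Fin 10 → R) : φ (dsc (Jc τ c)) = dsc (Jc (φ τ) (fun i => φ (c i))) := by
  simp only [dsc, disc, Jc, jb4, jb6, map_add, map_sub, map_mul, map_pow, map_neg, map_ofNat]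

section Deg

variable {F : Type} [Field F]

open Classical in
theorem deg_bound (D q : F[X]) (N : ℕ) (S : Finset F[X]) (hD : D ≠ 0)
    (h1 : ∀ P ∈ S, ¬ P ^ N ∣ D)
    (h2 : ∀ P : F[X], P.Monic → Irreducible P → P ∉ S → ¬ P ^ 2 ∣ D) (hq : q ^ 2 ∣ D) :
    q.natDegree ≤ N * ∑ P ∈ S, P.natDegree := by
  have hq0 : q ≠ 0 := by
    rintro rfl
    apply hD
    rw [zero_pow two_ne_zero] at hq
    exact zero_dvd_iff.1 hq
  set T := UniqueFactorizationMonoid.normalizedFactors q with hT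
  have hTS : ∀ P ∈ T, P ∈ S := by
    intro P hP
    by_contra hPS
    have hirr := UniqueFactorizationMonoid.irreducible_of_normalized_factor P hP
    have hn := UniqueFactorizationMonoid.normalize_normalized_factor P hP
    have hmon : P.Monic := by
      rw [← hn]
      exact Polynomial.monic_normalize hirr.ne_zero
    exact h2 P hmon hirr hPS
      ((pow_dvd_pow_of_dvd (UniqueFactorizationMonoid.dvd_of_mem_normalizedFactors hP) 2).trans hq)
  have h0 : (0 : F[X]) ∉ T := UniqueFactorizationMonoid.zero_notMem_normalizedFactors q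
  have ha : Associated T.prod q := UniqueFactorizationMonoid.prod_normalizedFactors hq0
  have hdeg : q.natDegree = (T.map natDegree).sum := by
    rw [← Polynomial.natDegree_multiset_prod _ h0]
    exact (Polynomial.natDegree_eq_of_degree_eq (Polynomial.degree_eq_degree_of_associated ha)).symm
  rw [hdeg, Finset.sum_multiset_map_count, Finset.mul_sum]
  calc ∑ m ∈ T.toFinset, Multiset.count m T • m.natDegree
      ≤ ∑ m ∈ T.toFinset, N * m.natDegree := by
        apply Finset.sum_le_sum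
        intro P hP
        rw [Multiset.mem_toFinset] at hP
        rw [smul_eq_mul]
        apply Nat.mul_le_mul_right
        by_contra hlt
        push Not at hlt
        apply h1 P (hTS P hP)
        have h3 : P ^ Multiset.count P T ∣ q := by
          refine dvd_trans ?_ ha.dvd
          have h4 : Multiset.replicate (Multiset.count P T) P ≤ T := Multiset.le_count_iff_replicate_le.1 le_rfl
          have h5 := Multiset.prod_dvd_prod_of_le h4
          rwa [Multiset.prod_replicate] at h5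
        exact (pow_dvd_pow P hlt.le).trans (h3.trans ((dvd_pow_self q two_ne_zero).trans hq))
    _ ≤ ∑ m ∈ S, N * m.natDegree := by
        apply Finset.sum_le_sum_of_subset
        intro P hP
        exact hTS P (Multiset.mem_toFinset.1 hP)

theorem deg_inf (n N : ℕ) (f : F[X] × F[X] × F[X]) (hf : f ∈ Fam F n)
    (h : ¬ X ^ N ∣ dsc (AVS.finf n f)) : 12 * n < (dsc f).natDegree + N := by
  by_contra hlt
  push Not at hlt
  apply h
  have h1 : dsc (AVS.finf n f) = reflect (12 * n) (dsc f) := by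
    have := AVS.BIN.disc_reflect F n f.1 f.2.1 f.2.2 hf.1 hf.2.1 hf.2.2
    exact this
  rw [h1, X_pow_dvd_iff]
  intro i hi
  rw [coeff_reflect, revAt_le (by omega)]
  apply coeff_eq_zero_of_natDegree_lt
  omega

theorem iX (k : ℤ) : ((RatFunc.X : RatFunc F) ^ k).intDegree = k := by
  have hn : ∀ m : ℕ, ((RatFunc.X : RatFunc F) ^ m).intDegree = m := by
    intro m
    rw [← RatFunc.algebraMap_X, ← map_pow, RatFunc.intDegree_polynomial, natDegree_X_pow]
  obtain ⟨m, rfl | rfl⟩ := k.eq_nat_or_neg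
  · rw [zpow_natCast, hn]
  · rw [_root_.zpow_neg, zpow_natCast, RatFunc.intDegree_inv, hn]

theorem ipow (x : RatFunc F) (hx : x ≠ 0) (k : ℕ) : (x ^ k).intDegree = k * x.intDegree := by
  induction k with
  | zero => simp
  | succ k ih =>
    rw [pow_succ, RatFunc.intDegree_mul (pow_ne_zero _ hx) hx, ih]
    push_cast
    ring

theorem det_Dg (d : Fin 3 → ℤ) : (Dg (F := F) d).det = (RatFunc.X : RatFunc F) ^ (∑ j, d j) := by
  have hX : (RatFunc.X : RatFunc F) ≠ 0 := RatFunc.X_ne_zero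
  rw [Dg, Matrix.det_diagonal, Fin.prod_univ_three, Fin.sum_univ_three, zpow_add₀ hX,
    zpow_add₀ hX]

theorem at_inf (hVDI : VDIStmt) (n : ℕ) (d : Fin 3 → ℤ) (c : Fin 10 → F[X]) :
    Eqv (Dg d)⁻¹ (((RatFunc.X : RatFunc F) ^ n)⁻¹ • mp c) (cI n d c) := by
  have hX : (RatFunc.X : RatFunc F) ≠ 0 := RatFunc.X_ne_zero
  have hd : ((Dg (F := F) d)⁻¹).det ≠ 0 := by
    rw [Matrix.det_nonsing_inv, det_Dg, Ring.inverse_eq_inv']
    exact inv_ne_zero (zpow_ne_zero _ hX)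
  refine ⟨isUnit_iff_ne_zero.2 hd, ?_⟩
  funext i
  have h3 := (hVDI F n d c).2.1 i
  rw [Pi.smul_apply, smul_eq_mul, ← h3, mul_div_cancel₀ _ hd]

end Deg

end NTR

open NTR

theorem ntr_thm (hFLD : Pool.AV3.FLDStmt) (hLFL : Pool.AV3.LFLStmt) (hFCT : Pool.AV3.FCTStmt)
    (hJER : Pool.AV3.JERStmt) (hVDI : Pool.AV3.VDIStmt) (hDVP : Pool.AV3.DVPStmt) :
    Pool.AV3.NTRStmt := by
  intro F _ _ h2 A N S hS
  set M := ∑ P ∈ S, P.natDegree with hM
  refine ⟨3 * (N * M) + 2 * N + 3 * A + 1, fun n hn f hf α β hα hβ c hc hT => ?_⟩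
  obtain ⟨g, hg⟩ := hT
  obtain ⟨hcV, p, hp⟩ := hc
  obtain ⟨⟨⟨hfam, hdsc⟩, -⟩, hfS, hfinf, hfP⟩ := hf
  have hdsc' : dsc f ≠ 0 := hdsc
  have hX : (RatFunc.X : RatFunc F) ≠ 0 := RatFunc.X_ne_zero
  set φ := algebraMap F[X] (RatFunc F) with hφ
  have hφi : Function.Injective φ := RatFunc.algebraMap_injective F
  have hφ0 : ∀ q : F[X], φ q = 0 → q = 0 := fun q hq => (map_eq_zero_iff _ hφi).1 hq
  have h2C : (2 : F[X]) * hf F = 1 := by
    rw [hf, show (2 : F[X]) = C (2 : F) from rfl, ← C_mul, mul_inv_cancel₀ h2, C_1]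
  have h2K : (2 : RatFunc F) * φ (hf F) = 1 := by
    have := congrArg φ h2C
    rwa [map_mul, map_one, map_ofNat] at this
  have h2n : (2 : RatFunc F) ≠ 0 := left_ne_zero_of_mul_eq_one h2K
  have h2i : φ (hf F) = (2 : RatFunc F)⁻¹ := eq_inv_of_mul_eq_one_right h2K
  -- the flex
  have hfl : Flex (mp c) (g⁻¹ *ᵥ (e1 : Fin 3 → RatFunc F)) (g⁻¹ *ᵥ ![1, 0, 0]) 1 (1 / g.det) := by
    apply Flex.push hg
    rw [Matrix.mulVec_mulVec, Matrix.mulVec_mulVec, Matrix.mul_nonsing_inv _ hg.1,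
      Matrix.one_mulVec, Matrix.one_mulVec]
    exact flex_FO _ _ _
  obtain ⟨γ, s, u, r, hγ, hs, hr, hγ1, hγ0⟩ := hFLD.1 F _ _ hfl.v0 hfl.vw
  have hfl2 := hfl.comb s u r hs hr
  rw [← hγ1, ← hγ0] at hfl2
  set μ : RatFunc F := s / r * 1 with hμ
  set κ : RatFunc F := r ^ 3 * (1 / g.det) with hκ
  have hμ0 : μ ≠ 0 := by
    rw [hμ, mul_one]
    exact div_ne_zero hs hr
  have hκ0 : κ ≠ 0 := mul_ne_zero (pow_ne_zero _ hr) (one_div_ne_zero hg.1.ne_zero)
  -- the form in the coordinates of the flag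
  obtain ⟨c2, hc2⟩ : ∃ c2, Eqv γ c c2 := by
    refine ⟨fun i => Ring.inverse γ.det * tsub c γ i, hγ, ?_⟩
    funext i
    rw [Pi.smul_apply, smul_eq_mul, ← mul_assoc, Ring.mul_inverse_cancel _ hγ, one_mul]
  have hE2 : Eqv (γ.map φ) (mp c) (mp c2) := hc2.map φ
  have hfl3 : Flex (mp c2) (e1 : Fin 3 → RatFunc F) ![1, 0, 0] μ (κ / (γ.map φ).det) :=
    Flex.push hE2 hfl2
  have z1 : c2 1 = 0 := hφ0 _ (by have := hfl3.h2; rwa [tder_e0_e1] at this)
  have z3 : c2 3 = 0 := hφ0 _ (by have := hfl3.h1; rwa [tder_e1_e0] at this)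
  have z6 : c2 6 = 0 := hφ0 _ (by have := hfl3.h0; rwa [tev_e1] at this)
  have hdet : (γ.map φ).det = φ γ.det := by
    rw [RingHom.map_det]
    rfl
  have k0 : κ = φ (c2 0 * γ.det) := by
    have h3 := hfl3.h3
    rw [tev_e0, hdet] at h3
    have h4 : φ γ.det ≠ 0 := fun h => hγ.ne_zero (hφ0 _ h)
    have h5 : φ (c2 0) = κ / φ γ.det := h3
    rw [map_mul, h5, div_mul_cancel₀ _ h4]
  have k7 : μ = -φ (c2 7) := by
    have h3 := hfl3.hm ![0, 0, 1]
    rw [tder_e1_e2] at h3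
    have h4 : (crossProduct (e1 : Fin 3 → RatFunc F) ![1, 0, 0] ⬝ᵥ ![0, 0, 1]) = -1 := by
      simp [crossProduct, e1]
    rw [h4] at h3
    have h5 : φ (c2 7) = μ * -1 := h3
    rw [h5]
    ring
  have n0 : c2 0 ≠ 0 := by
    intro h
    rw [h, zero_mul, map_zero] at k0
    exact hκ0 k0
  have n7 : c2 7 ≠ 0 := by
    intro h
    rw [h, map_zero, neg_zero] at k7
    exact hμ0 k7
  -- discriminants
  have hdc : dsc (Jc (hf F) c) = dsc f := by
    rw [hp, dsc_sh]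
  have hdc2 : dsc (Jc (hf F) c2) = dsc f := by
    apply hφi
    have h3 := dsc_eqv hJER (φ (hf F)) h2K hE2
    rw [← hdc, NTR.map_dsc_Jc φ, NTR.map_dsc_Jc φ]
    exact h3
  have hdvd : (c2 0 * c2 7) ^ 2 ∣ dsc f := by
    rw [← hdc2]
    exact (hFCT F[X] (hf F) 0 h2C).2.2.2 c2 z1 z3 z6
  have hb := deg_bound (dsc f) (c2 0 * c2 7) N S hdsc' hfS hfP hdvd
  rw [natDegree_mul n0 n7, ← hM] at hb
  have hbi := deg_inf n N f hfam hfinf
  -- at infinity
  set d := AV3.dv α β with hd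
  have hDdet : (Dg (F := F) d).det ≠ 0 := by
    rw [det_Dg]
    exact zpow_ne_zero _ hX
  have hfl4 : Flex (cI n d c) (Dg d *ᵥ (γ.map φ *ᵥ (e1 : Fin 3 → RatFunc F)))
      (Dg d *ᵥ (γ.map φ *ᵥ ![1, 0, 0])) (((RatFunc.X : RatFunc F) ^ n)⁻¹ * μ)
      (((RatFunc.X : RatFunc F) ^ n)⁻¹ * κ / ((Dg d)⁻¹).det) := by
    apply Flex.push (at_inf hVDI n d c)
    rw [Matrix.mulVec_mulVec _ (Dg d)⁻¹, Matrix.mulVec_mulVec _ (Dg d)⁻¹,
      Matrix.nonsing_inv_mul _ (isUnit_iff_ne_zero.2 hDdet), Matrix.one_mulVec, Matrix.one_mulVec]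
    exact hfl2.smul_form _
  have hVi : ∀ i, (Dg d *ᵥ (γ.map φ *ᵥ (e1 : Fin 3 → RatFunc F))) i =
      (RatFunc.X : RatFunc F) ^ d i * φ (γ i 1) := by
    intro i
    rw [Dg, Matrix.mulVec_diagonal, mulVec3]
    simp [e1]
  -- the maximum
  have hd0 : ∀ i, 0 ≤ d i := by
    intro i
    fin_cases i <;> simp [hd, AV3.dv]
    positivity
  obtain ⟨i0, hi0, hmax⟩ : ∃ i0, γ i0 1 ≠ 0 ∧ ∀ i, γ i 1 ≠ 0 →
      d i + ((γ i 1).natDegree : ℤ) ≤ d i0 + ((γ i0 1).natDegree : ℤ) := by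
    classical
    have hne : (Finset.univ.filter fun i => γ i 1 ≠ 0).Nonempty := by
      by_contra hemp
      rw [Finset.not_nonempty_iff_eq_empty] at hemp
      apply hγ.ne_zero
      apply Matrix.det_eq_zero_of_column_eq_zero 1
      intro i
      by_contra hi
      have : i ∈ (Finset.univ.filter fun i => γ i 1 ≠ 0) := by
        rw [Finset.mem_filter]
        exact ⟨Finset.mem_univ _, hi⟩
      rw [hemp] at this
      exact absurd this (Finset.notMem_empty _)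
    obtain ⟨i0, h3, h4⟩ := Finset.exists_max_image _
      (fun i => d i + ((γ i 1).natDegree : ℤ)) hne
    refine ⟨i0, (Finset.mem_filter.1 h3).2, fun i hi => h4 i ?_⟩
    rw [Finset.mem_filter]
    exact ⟨Finset.mem_univ _, hi⟩
  set h : ℤ := d i0 + ((γ i0 1).natDegree : ℤ) with hh
  have hh0 : 0 ≤ h := add_nonneg (hd0 _) (Nat.cast_nonneg _)
  have hXh : (RatFunc.X : RatFunc F) ^ h ≠ 0 := zpow_ne_zero _ hX
  have hdeg : ∀ i, γ i 1 ≠ 0 → ((RatFunc.X : RatFunc F) ^ d i * φ (γ i 1) /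
      (RatFunc.X : RatFunc F) ^ h).intDegree = d i + ((γ i 1).natDegree : ℤ) - h := by
    intro i hi
    have h3 : φ (γ i 1) ≠ 0 := fun h => hi (hφ0 _ h)
    rw [div_eq_mul_inv, RatFunc.intDegree_mul (mul_ne_zero (zpow_ne_zero _ hX) h3)
      (inv_ne_zero hXh), RatFunc.intDegree_mul (zpow_ne_zero _ hX) h3, RatFunc.intDegree_inv, iX,
      iX, RatFunc.intDegree_polynomial]
    ring
  have h2I : (2 : RatFunc F)⁻¹ ∈ AVS.Iinf F := by
    show ((2 : RatFunc F)⁻¹).intDegree ≤ 0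
    rw [← h2i, RatFunc.intDegree_polynomial, hf, natDegree_C]
    simp
  have hdcI : dsc (Jc (2 : RatFunc F)⁻¹ (cI n d c)) =
      (((RatFunc.X : RatFunc F) ^ n)⁻¹) ^ 12 * φ (dsc f) := by
    rw [dsc_eqv hJER (2 : RatFunc F)⁻¹ (mul_inv_cancel₀ h2n) (at_inf hVDI n d c), dsc_smul,
      ← hdc, NTR.map_dsc_Jc φ, h2i]
    rfl
  have hφd : φ (dsc f) ≠ 0 := fun h => hdsc' (hφ0 _ h)
  have hXn : ((RatFunc.X : RatFunc F) ^ n)⁻¹ ≠ 0 := inv_ne_zero (pow_ne_zero _ hX)
  obtain ⟨y, hyI, hy⟩ := hLFL (RatFunc F) (AVS.Iinf F) (RatFunc.X)⁻¹ (hDVP.2.1 F) h2n h2I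
    (cI n d c) _ _ _ _ ((RatFunc.X : RatFunc F) ^ h) ((hVDI F n d c).1.1 hcV) hfl4.v0 hfl4.vw
    hfl4.h0 hfl4.h1 hfl4.h2 hfl4.h3 hfl4.hm hXh (fun i => by
      rw [hVi]
      show RatFunc.intDegree _ ≤ 0
      by_cases hi : γ i 1 = 0
      · rw [hi, map_zero, mul_zero, zero_div, RatFunc.intDegree_zero]
      · rw [hdeg i hi]
        have := hmax i hi
        omega) ⟨i0, by
      rw [hVi]
      have h3 := hdeg i0 hi0
      have h4 : φ (γ i0 1) ≠ 0 := fun h => hi0 (hφ0 _ h)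
      refine ⟨div_ne_zero (mul_ne_zero (zpow_ne_zero _ hX) h4) hXh, ?_, ?_⟩
      · show RatFunc.intDegree _ ≤ 0
        rw [h3]
        omega
      · show RatFunc.intDegree _ ≤ 0
        rw [RatFunc.intDegree_inv, h3]
        omega⟩ (by
      rw [hdcI]
      exact mul_ne_zero (pow_ne_zero _ hXn) hφd)
  have hy0 : y ≠ 0 := by
    rintro rfl
    rw [zero_mul, hdcI] at hy
    exact (pow_ne_zero 2 (mul_ne_zero (pow_ne_zero _ hXn) hφd)) hy
  have hyd : y.intDegree ≤ 0 := hyI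
  have hDi : ((Dg (F := F) d)⁻¹).det = (RatFunc.X : RatFunc F) ^ (-(∑ j, d j)) := by
    rw [Matrix.det_nonsing_inv, det_Dg, Ring.inverse_eq_inv', ← _root_.zpow_neg]
  rw [hdcI, hDi] at hy
  have hy2 : y * (RatFunc.X ^ (∑ j, d j) * κ * μ ^ 3) =
      (φ (dsc f)) ^ 2 * (RatFunc.X ^ h) ^ 3 * ((RatFunc.X : RatFunc F) ^ n)⁻¹ ^ 20 := by
    have h3 : (RatFunc.X : RatFunc F) ^ (∑ j, d j) ≠ 0 := zpow_ne_zero _ hX
    rw [_root_.zpow_neg] at hy
    have hXn' : (RatFunc.X : RatFunc F) ^ n ≠ 0 := pow_ne_zero _ hX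
    field_simp at hy ⊢
    linear_combination (-1 : RatFunc F) * hy
  have hSd : ∑ j, d j = 2 * α + β := by
    rw [Fin.sum_univ_three, hd]
    simp [AV3.dv]
    ring
  have dκ : κ.intDegree = ((c2 0).natDegree : ℤ) := by
    rw [k0, RatFunc.intDegree_polynomial, natDegree_mul n0 hγ.ne_zero,
      Polynomial.natDegree_eq_zero_of_isUnit hγ, add_zero]
  have dμ : μ.intDegree = ((c2 7).natDegree : ℤ) := by
    rw [k7, RatFunc.intDegree_neg, RatFunc.intDegree_polynomial]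
  have hS0 : (RatFunc.X : RatFunc F) ^ (∑ j, d j) ≠ 0 := zpow_ne_zero _ hX
  have h5 := congrArg RatFunc.intDegree hy2
  rw [RatFunc.intDegree_mul hy0 (mul_ne_zero (mul_ne_zero hS0 hκ0) (pow_ne_zero _ hμ0)),
    RatFunc.intDegree_mul (mul_ne_zero hS0 hκ0) (pow_ne_zero _ hμ0),
    RatFunc.intDegree_mul hS0 hκ0, ipow _ hμ0, iX, dκ, dμ,
    RatFunc.intDegree_mul (mul_ne_zero (pow_ne_zero _ hφd) (pow_ne_zero _ hXh))
      (pow_ne_zero _ hXn), RatFunc.intDegree_mul (pow_ne_zero _ hφd) (pow_ne_zero _ hXh),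
    ipow _ hφd, ipow _ hXh, ipow _ hXn, iX, RatFunc.intDegree_inv, RatFunc.intDegree_polynomial,
    ← zpow_natCast, iX, hSd] at h5
  have hb' : ((c2 0).natDegree : ℤ) + ((c2 7).natDegree : ℤ) ≤ ((N * M : ℕ) : ℤ) := by
    exact_mod_cast hb
  have hbi' : (12 : ℤ) * n < ((dsc f).natDegree : ℤ) + N := by exact_mod_cast hbi
  have hn' : (3 : ℤ) * ((N * M : ℕ) : ℤ) + 2 * N + 3 * A + 1 ≤ n := by exact_mod_cast hn
  have hα' : (α : ℤ) ≤ A := by exact_mod_cast hα
  have hβ' : (β : ℤ) ≤ A := by exact_mod_cast hβ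
  have hc0 : (0 : ℤ) ≤ ((c2 0).natDegree : ℤ) := Nat.cast_nonneg _
  push_cast at h5
  generalize ((N * M : ℕ) : ℤ) = B at hb' hn'
  linarith


end Pool.Agent.H43.AV3C
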