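import Pool.Agent.H8.AV3.Stmts7

/-!
# UNQ3: uniqueness of the lattice for discriminants of valuation at most one
-/

set_option autoImplicit false

namespace Pool.Agent.H43.AV3C

open Polynomial Matrix Pool.AVR Pool.AV3

theorem map_dsc_Jc {R S : Type} [CommRing R] [CommRing S] (φ : R →+* S) (τ : R)
    (c : Fin 10 → R) : φ (dsc (Jc τ c)) = dsc (Jc (φ τ) (fun i => φ (c i))) := by
  simp only [dsc, disc, Jc, jb4, jb6, map_add, map_sub, map_mul, map_pow, map_neg, map_ofNat]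

theorem det_D {K : Type} [Field K] (x y : K) :
    (Matrix.diagonal ![1, x, y] : Matrix (Fin 3) (Fin 3) K).det = x * y := by
  rw [Matrix.det_diagonal, Fin.prod_univ_three]
  simp

theorem tsub_D {K : Type} [Field K] (c : Fin 10 → K) (x y : K) :
    tsub c (Matrix.diagonal ![1, x, y]) =
      ![c 0, c 1 * x, c 2 * y, c 3 * x ^ 2, c 4 * (x * y), c 5 * y ^ 2, c 6 * x ^ 3,
        c 7 * (x ^ 2 * y), c 8 * (x * y ^ 2), c 9 * y ^ 3] := by
  funext i
  fin_cases i <;>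
  simp [tsub, tev, tder, Matrix.diagonal]
  · ring
  · left
    ring

theorem unq3_thm (hSNF : Pool.AV3.SNF3Stmt) (hFCT : Pool.AV3.FCTStmt) (hJER : Pool.AV3.JERStmt)
    (hGIR : Pool.AV3.GIRStmt) : Pool.AV3.UNQ3Stmt := by
  intro K _ I π hD harch h2 h2I c c' g hc hc' hE hds
  obtain ⟨k₁, k₂, n, a, b, hk1, hk2, hab, hg⟩ := hSNF K I π hD harch g hE.1.ne_zero
  have hπ : π ≠ 0 := hD.pi_ne
  obtain ⟨V, hV⟩ := hD.val
  have memV : ∀ x : K, x ∈ V ↔ x ∈ I := fun x => by rw [← hV]; rfl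
  have hGI := hGIR K I π hD
  obtain ⟨-, gmul, ginv, -, gtsub, -⟩ := hGI
  have d1 : k₁.det ≠ 0 := (ginv k₁ hk1).2
  have d2 : k₂.det ≠ 0 := (ginv k₂ hk2).2
  -- pi is in I
  have hπI : π ∈ I := by
    rw [← memV]
    rcases V.mem_or_inv_mem π with h | h
    · exact h
    · exfalso
      have hi : π⁻¹ ∈ I := (memV _).1 h
      have h3 := (hD.unif π⁻¹ hi (inv_ne_zero hπ))
      rw [inv_inv] at h3
      by_cases h4 : π ∈ I
      · have h5 := (hD.unif π h4 hπ).2 (by rw [div_self hπ, ← memV]; exact V.one_mem)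
        exact h5 hi
      · have h6 := h3.1 h4
        have h7 : π⁻¹ ≠ 0 := inv_ne_zero hπ
        -- 1 in I, 1 inverse in I, hence 1 / pi not in I
        have h8 := hD.unif 1 ((memV _).1 V.one_mem) one_ne_zero
        rw [inv_one, one_div] at h8
        exact (h8.2 hi) ((memV _).1 V.one_mem)
  -- normalised forms
  have hgk1 : ∀ (c₀ : Fin 10 → K) (k : Matrix (Fin 3) (Fin 3) K), (∀ i, c₀ i ∈ I) →
      AVS.GI I k → ∃ c₁ : Fin 10 → K, (∀ i, c₁ i ∈ I) ∧ Eqv k c₀ c₁ := by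
    intro c₀ k h0 hk
    have hdk : k.det ≠ 0 := (ginv k hk).2
    refine ⟨fun i => k.det⁻¹ * tsub c₀ k i, fun i => ?_, isUnit_iff_ne_zero.2 hdk, ?_⟩
    · have h3 := (gtsub c₀ k 0 0 h0 hk.1 (fun i => (memV _).1 V.zero_mem)
        (fun i => (memV _).1 V.zero_mem)).2.2 i
      rw [← memV] at h3 ⊢
      exact V.mul_mem _ _ ((memV _).2 hk.2.2.2) h3
    · funext i
      simp only [Pi.smul_apply, smul_eq_mul]
      rw [← mul_assoc, mul_inv_cancel₀ hdk, one_mul]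
  obtain ⟨c₁, hc1, hE1⟩ := hgk1 c k₁ hc hk1
  obtain ⟨c₂, hc2, hE2⟩ := hgk1 c' k₂⁻¹ hc' (ginv k₂ hk2).1
  have hr : (π ^ n)⁻¹ ≠ 0 := inv_ne_zero (zpow_ne_zero n hπ)
  have hrg : (π ^ n)⁻¹ • g = k₁ * Matrix.diagonal ![1, π ^ a, π ^ b] * k₂ := by
    rw [hg, smul_smul, inv_mul_cancel₀ (zpow_ne_zero n hπ), one_smul]
  by_cases hb : b = 0
  · have ha : a = 0 := by omega
    refine ⟨(π ^ n)⁻¹, hr, ?_⟩
    rw [hrg, ha, hb, pow_zero]
    have hd1 : (Matrix.diagonal ![1, 1, 1] : Matrix (Fin 3) (Fin 3) K) = 1 := by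
      rw [← Matrix.diagonal_one]
      congr 1
      funext i
      fin_cases i <;> rfl
    rw [hd1, mul_one]
    exact gmul _ _ hk1 hk2
  exfalso
  have hE3 : Eqv (Matrix.diagonal ![1, π ^ a, π ^ b]) c₁ c₂ := by
    have h3 := (hE1.symm.trans (hE.smul (isUnit_iff_ne_zero.2 hr))).trans hE2
    rw [hrg] at h3
    have e1 : k₁⁻¹ * (k₁ * Matrix.diagonal ![1, π ^ a, π ^ b] * k₂) * k₂⁻¹ =
        Matrix.diagonal ![1, π ^ a, π ^ b] := by
      rw [Matrix.mul_assoc k₁, Matrix.nonsing_inv_mul_cancel_left _ _ hE1.1, Matrix.mul_assoc,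
        Matrix.mul_nonsing_inv _ (isUnit_iff_ne_zero.2 d2), mul_one]
    rwa [e1] at h3
  have hE4 := hE3.2
  rw [tsub_D, det_D] at hE4
  have hpa : π ^ a ≠ 0 := pow_ne_zero _ hπ
  have hpb : π ^ b ≠ 0 := pow_ne_zero _ hπ
  have e0 : c₁ 0 = π ^ a * π ^ b * c₂ 0 := by
    have := congrFun hE4 0
    simpa using this
  have e1 : c₁ 1 = π ^ b * c₂ 1 := by
    have h3 : c₁ 1 * π ^ a = π ^ a * π ^ b * c₂ 1 := by
      have := congrFun hE4 1
      simpa using this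
    apply mul_right_cancel₀ hpa
    rw [h3]
    ring
  have e2 : c₁ 2 = π ^ a * c₂ 2 := by
    have h3 : c₁ 2 * π ^ b = π ^ a * π ^ b * c₂ 2 := by
      have := congrFun hE4 2
      simpa using this
    apply mul_right_cancel₀ hpb
    rw [h3]
    ring
  have e3 : c₁ 3 * (π ^ a) ^ 2 = π ^ a * π ^ b * c₂ 3 := by
    have := congrFun hE4 3
    simpa using this
  have e6 : c₁ 6 * (π ^ a) ^ 3 = π ^ a * π ^ b * c₂ 6 := by
    have := congrFun hE4 6
    simpa using this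
  -- the forms over the valuation ring
  let C1 : Fin 10 → V := fun i => ⟨c₁ i, (memV _).2 (hc1 i)⟩
  let C2 : Fin 10 → V := fun i => ⟨c₂ i, (memV _).2 (hc2 i)⟩
  let p : V := ⟨π, (memV _).2 hπI⟩
  let τ : V := ⟨2⁻¹, (memV _).2 h2I⟩
  have hτ : 2 * τ = 1 := by
    apply Subtype.ext
    show (2 : K) * 2⁻¹ = 1
    exact mul_inv_cancel₀ h2
  have hmap : ((dsc (Jc τ C1) : V) : K) = dsc (Jc (2 : K)⁻¹ c₁) :=
    map_dsc_Jc V.subtype τ C1
  obtain ⟨f1, f2, -, -⟩ := hFCT V τ p hτ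
  have hdvd : p ^ 2 ∣ dsc (Jc τ C1) := by
    by_cases ha : a = 0
    · subst ha
      obtain ⟨b', rfl⟩ : ∃ b', b = b' + 1 := ⟨b - 1, by omega⟩
      have hx : ∀ i, c₁ i = π ^ (b' + 1) * c₂ i → p ∣ C1 i := by
        intro i hi
        refine ⟨p ^ b' * C2 i, ?_⟩
        apply Subtype.ext
        show c₁ i = π * (π ^ b' * c₂ i)
        rw [hi]
        ring
      apply f2 C1
      · exact hx 0 (by rw [e0]; ring)
      · exact hx 1 e1
      · exact hx 3 (by have := e3; rw [pow_zero] at this; linear_combination this)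
      · exact hx 6 (by have := e6; rw [pow_zero] at this; linear_combination this)
    · obtain ⟨a', rfl⟩ : ∃ a', a = a' + 1 := ⟨a - 1, by omega⟩
      obtain ⟨b', rfl⟩ : ∃ b', b = b' + 1 := ⟨b - 1, by omega⟩
      apply f1 C1
      · refine ⟨p ^ a' * p ^ b' * C2 0, ?_⟩
        apply Subtype.ext
        show c₁ 0 = π ^ 2 * (π ^ a' * π ^ b' * c₂ 0)
        rw [e0]
        ring
      · refine ⟨p ^ b' * C2 1, ?_⟩
        apply Subtype.ext
        show c₁ 1 = π * (π ^ b' * c₂ 1)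
        rw [e1]
        ring
      · refine ⟨p ^ a' * C2 2, ?_⟩
        apply Subtype.ext
        show c₁ 2 = π * (π ^ a' * c₂ 2)
        rw [e2]
        ring
  obtain ⟨y, hy⟩ := hdvd
  obtain ⟨η, hη⟩ := hJER K (2 : K)⁻¹ (mul_inv_cancel₀ h2) k₁ c c₁ hE1
  apply hds
  rw [← dsc_sh η (Jc (2 : K)⁻¹ c), ← hη, ← hmap, hy]
  have : (((p ^ 2 * y : V)) : K) / π ^ 2 = (y : K) := by
    show π ^ 2 * (y : K) / π ^ 2 = (y : K)
    rw [mul_comm, mul_div_assoc, div_self (pow_ne_zero 2 hπ), mul_one]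
  rw [this, ← memV]
  exact y.2

end Pool.Agent.H43.AV3C
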